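import Pool.Agent.W_b4801b_h90.Odd

/-!
# Dimension six, odd weight: semisimplicity for all primes (helper90)
-/

set_option autoImplicit false

noncomputable section

open Polynomial

universe u v

namespace Pool.Agent.T10

open Pool.Agent.B4801b

variable {k : Type u} [Field k] {w : ℕ}

/-- The parity argument for a multiset of three elements. -/
theorem three_aux {Ω : Type*} [Field Ω] [CharZero Ω] [IsAlgClosed Ω] (P : ℚ[X])
    (hP : P ≠ 0) (A : Multiset Ω) (hA : A.Nodup) (hmem : ∀ a, aeval a P = 0 → a ∈ A)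
    (hroot : ∀ a ∈ A, aeval a P = 0)
    (h6 : Multiset.card A ≤ 6)
    (hneat : ∀ a ∈ A, ∀ b ∈ A, a ≠ b → ∀ m : ℕ, 0 < m → a ^ m ≠ b ^ m) (c : ℚ)
    (h0 : ∀ a ∈ A, a ≠ 0) (T : Multiset Ω) (hT : T + T.map (fun a => (c : Ω) / a) ≤ A)
    (h3 : Multiset.card T = 3) (hp : T.prod ^ 2 = (c : Ω) ^ 3) : IsSquare (c ^ 3) := by
  classical
  have hAeq : T + T.map (fun a => (c : Ω) / a) = A := by
    refine Multiset.eq_of_le_of_card_le hT ?_
    rw [Multiset.card_add, Multiset.card_map, h3]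
    exact h6
  obtain ⟨a₁, a₂, a₃, rfl⟩ := Multiset.card_eq_three.1 h3
  have hnd : (({a₁, a₂, a₃} : Multiset Ω) +
      (({a₁, a₂, a₃} : Multiset Ω)).map (fun a => (c : Ω) / a)).Nodup := by rw [hAeq]; exact hA
  have hndT : ({a₁, a₂, a₃} : Multiset Ω).Nodup := (Multiset.nodup_add.1 hnd).1
  have hdis : Disjoint ({a₁, a₂, a₃} : Multiset Ω)
      ((({a₁, a₂, a₃} : Multiset Ω)).map (fun a => (c : Ω) / a)) := (Multiset.nodup_add.1 hnd).2.2
  let b : Fin 3 → Ω := ![a₁, a₂, a₃]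
  have hbT : ∀ j, b j ∈ ({a₁, a₂, a₃} : Multiset Ω) := by
    intro j
    fin_cases j <;> simp [b]
  have hTb : ∀ a ∈ ({a₁, a₂, a₃} : Multiset Ω), ∃ j, a = b j := by
    intro a ha
    simp only [Multiset.insert_eq_cons, Multiset.mem_cons, Multiset.mem_singleton] at ha
    rcases ha with rfl | rfl | rfl
    · exact ⟨0, rfl⟩
    · exact ⟨1, rfl⟩
    · exact ⟨2, rfl⟩
  have hbA : ∀ j, b j ∈ A := fun j => by
    rw [← hAeq]
    exact Multiset.mem_add.2 (Or.inl (hbT j))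
  have hcA : ∀ j, (c : Ω) / b j ∈ A := fun j => by
    rw [← hAeq]
    exact Multiset.mem_add.2 (Or.inr (Multiset.mem_map_of_mem _ (hbT j)))
  have hne : ∀ i j, b i ≠ (c : Ω) / b j := by
    intro i j h
    exact (Multiset.disjoint_left.1 hdis (hbT i))
      (h ▸ Multiset.mem_map_of_mem (fun a => (c : Ω) / a) (hbT j))
  have hinj : Function.Injective b := by
    simp only [Multiset.insert_eq_cons, Multiset.nodup_cons, Multiset.mem_cons,
      Multiset.mem_singleton, Multiset.nodup_singleton, and_true, not_or] at hndT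
    obtain ⟨⟨h12, h13⟩, h23⟩ := hndT
    intro i j hij
    fin_cases i <;> fin_cases j <;> simp [b] at hij ⊢
    · exact h12 hij
    · exact h13 hij
    · exact h12 hij.symm
    · exact h23 hij
    · exact h13 hij.symm
    · exact h23 hij.symm
  refine B4801b90.three P hP c b (fun j => h0 _ (hbA j)) (fun j => hroot _ (hbA j)) ?_ hinj hne ?_ ?_
  · intro a ha
    have h1 := hmem a ha
    rw [← hAeq, Multiset.mem_add, Multiset.mem_map] at h1
    rcases h1 with h1 | ⟨a', ha', rfl⟩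
    · obtain ⟨j, hj⟩ := hTb a h1
      exact ⟨j, Or.inl hj⟩
    · obtain ⟨j, hj⟩ := hTb a' ha'
      exact ⟨j, Or.inr (by rw [hj])⟩
  · intro j m hm h1
    have hb := h0 _ (hbA j)
    refine hneat _ (hbA j) _ (hcA j) (hne j j) m hm ?_
    rw [div_pow, ← pow_mul] at h1
    rw [div_eq_one_iff_eq (pow_ne_zero _ hb)] at h1
    rw [div_pow, eq_div_iff (pow_ne_zero _ hb), h1, ← pow_add]
    congr 1
    ring
  · have h1 : ({a₁, a₂, a₃} : Multiset Ω).prod = b 0 * b 1 * b 2 := by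
      simp [b, mul_assoc]
    rw [← h1]
    exact hp

/-- In dimension at most six and odd weight `V_ℓ` is semisimple for all primes `ℓ` with balanced
determinants. -/
theorem semisimple_of_six (S : CompSys.{u, v} k w) (hd : DenseOdd S) (D : ℕ)
    (hm : MaxRoots S D) (hx : ∃ x, Neat S D x) (ℓ : ℕ) [Fact ℓ.Prime]
    (hdim : Module.finrank ℚ_[ℓ] (S.rep ℓ).V = D) (h6 : D ≤ 6) (hw : Odd w)
    (hb : Balanced (S.rep ℓ)) : (S.rep ℓ).Semisimple := by
  obtain ⟨x₀, hx₀, hx₀T⟩ := exists_neat_avoid S (DenseOdd.dense S hd) D hm hx {ℓ}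
  have hℓ₀ : ℓ ≠ x₀.p := fun h => hx₀T (by rw [← h]; exact Finset.mem_singleton_self ℓ)
  have hm' : MaxRoots (oddSys S) D := by
    obtain ⟨U, hU, hmax⟩ := hm
    exact ⟨U, hU, fun x hx h => hmax x hx.1 h⟩
  obtain ⟨x, hxn', hℓ, h, hCg⟩ := exists_neat_cg (oddSys S) (denseFrob_oddSys S hd) D hm' ℓ x₀.frob
    (neatAt_of_neat S D x₀ hx₀ ℓ hℓ₀)
  have hxn : Neat S D x := ⟨hxn'.1.1, hxn'.2⟩
  have hqsq : ¬ IsSquare x.q := hxn'.1.2
  have hxP : x ∈ S.Pl := hxn.1
  obtain ⟨N, hN, hbal⟩ := hb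
  intro W hW
  have hq0 : x.q ≠ 0 := by
    intro h0
    have := x.cyc_frob ℓ hℓ
    rw [h0, Nat.cast_zero, mul_zero] at this
    exact zero_ne_one this
  have hqc : ((x.q : ℚ_[ℓ]) ^ w) ≠ 0 := pow_ne_zero _ (Nat.cast_ne_zero.mpr hq0)
  have hφc : ∀ a b, (S.rep ℓ).ψ ((S.rep ℓ).ρ x.frob a) ((S.rep ℓ).ρ x.frob b) =
      (x.q : ℚ_[ℓ]) ^ w * (S.rep ℓ).ψ a b := by
    intro a b
    rw [← (S.rep ℓ).equivariant x.frob a b, ← mul_assoc, ← mul_pow, mul_comm (x.q : ℚ_[ℓ]),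
      x.cyc_frob ℓ hℓ, one_pow, one_mul]
  have hperp : ∀ σ, ∀ y ∈ perp (S.rep ℓ).ψ W, (S.rep ℓ).ρ σ y ∈ perp (S.rep ℓ).ψ W := by
    intro σ y hy z hz
    have h1 : (S.rep ℓ).ρ σ ((S.rep ℓ).ρ σ⁻¹ z) = z := by
      rw [← Module.End.mul_apply, ← map_mul, mul_inv_cancel, map_one, Module.End.one_apply]
    have h2 : (S.rep ℓ).ψ ((S.rep ℓ).ρ σ⁻¹ z) y = 0 := hy _ (hW _ _ hz)
    have h3 := (S.rep ℓ).equivariant σ ((S.rep ℓ).ρ σ⁻¹ z) y
    rw [h1, h2] at h3
    rcases mul_eq_zero.mp h3 with h | h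
    · have : ∀ a b, (S.rep ℓ).ψ a b = 0 := fun a b => by
        rw [← (S.rep ℓ).equivariant σ a b, h, zero_mul]
      exact this _ _
    · exact h
  refine ⟨perp (S.rep ℓ).ψ W, hperp, isCompl_perp _ _ ?_⟩
  have hI : ∀ σ, ∀ y ∈ W ⊓ perp (S.rep ℓ).ψ W, (S.rep ℓ).ρ σ y ∈ W ⊓ perp (S.rep ℓ).ψ W :=
    fun σ y hy => ⟨hW σ y hy.1, hperp σ y hy.2⟩
  have hiso : ∀ a ∈ W ⊓ perp (S.rep ℓ).ψ W, ∀ b ∈ W ⊓ perp (S.rep ℓ).ψ W, (S.rep ℓ).ψ a b = 0 :=
    fun a ha b hb => hb.2 a ha.1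
  have hdet := hbal (W ⊓ perp (S.rep ℓ).ψ W) hI hiso x.frob
  have hbot : W ⊓ perp (S.rep ℓ).ψ W = ⊥ := by
    obtain ⟨T, hT1, hT2, hT3⟩ := exists_relation (AlgebraicClosure ℚ_[ℓ]) (S.rep ℓ).ψ
      (S.rep ℓ).nondeg ((S.rep ℓ).ρ x.frob) _ hqc hφc (W ⊓ perp (S.rep ℓ).ψ W) (hI x.frob) hiso
    obtain ⟨hge, hneat⟩ := neatAt_of_neat S D x hxn ℓ hℓ
    have hcard : Multiset.card ((((S.rep ℓ).ρ x.frob).charpoly).aroots (AlgebraicClosure ℚ_[ℓ])) = D := by
      rw [card_aroots, hdim]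
    have hmem : ∀ a, a ∈ (((S.rep ℓ).ρ x.frob).charpoly).aroots (AlgebraicClosure ℚ_[ℓ]) →
        aeval a ((S.rep ℓ).ρ x.frob).charpoly = 0 := by
      intro a ha
      exact (Polynomial.mem_aroots.1 ha).2
    have hnd : ((((S.rep ℓ).ρ x.frob).charpoly).aroots (AlgebraicClosure ℚ_[ℓ])).Nodup := by
      classical
      rw [← Multiset.toFinset_card_eq_card_iff_nodup]
      refine le_antisymm (Multiset.toFinset_card_le _) ?_
      rw [hcard]
      refine hge.trans (le_of_eq ?_)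
      rw [Polynomial.rootSet, Set.ncard_coe_finset]
    have hcardT : 2 * Multiset.card T ≤ D := by
      have h1 := Multiset.card_le_card hT3
      rw [Multiset.card_add, Multiset.card_map, hcard] at h1
      omega
    have hroot0 : ∀ a ∈ (((S.rep ℓ).ρ x.frob).charpoly).aroots (AlgebraicClosure ℚ_[ℓ]), a ≠ 0 := by
      intro a ha h0
      have h1 := hmem a ha
      rw [h0] at h1
      have h2 : ((S.rep ℓ).ρ x.frob).charpoly.eval 0 = 0 := by
        have h3 := h1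
        rw [Polynomial.aeval_def, Polynomial.eval₂_at_zero] at h3
        rw [← Polynomial.coeff_zero_eq_eval_zero]
        exact (map_eq_zero_iff _ (algebraMap ℚ_[ℓ] (AlgebraicClosure ℚ_[ℓ])).injective).1 h3
      have h4 : LinearMap.det ((S.rep ℓ).ρ x.frob) = 0 := by
        rw [LinearMap.det_eq_sign_charpoly_coeff, Polynomial.coeff_zero_eq_eval_zero, h2, mul_zero]
      have h5 : LinearMap.det ((S.rep ℓ).ρ x.frob) * LinearMap.det ((S.rep ℓ).ρ x.frob⁻¹) = 1 := by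
        rw [← map_mul, ← map_mul, mul_inv_cancel, map_one, map_one]
      rw [h4, zero_mul] at h5
      exact zero_ne_one h5
    have hrel : T.prod ^ (2 * N) =
        (algebraMap ℚ_[ℓ] (AlgebraicClosure ℚ_[ℓ]) ((x.q : ℚ_[ℓ]) ^ w)) ^
          (Multiset.card T * N) := by
      rw [hT2, hT1, ← map_pow]
      rw [← map_pow (algebraMap ℚ_[ℓ] (AlgebraicClosure ℚ_[ℓ])) ((x.q : ℚ_[ℓ]) ^ w)]
      congr 1
      have hc : cyc k ℓ x.frob * (x.q : ℚ_[ℓ]) = 1 := x.cyc_frob ℓ hℓ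
      have h6 : (cyc k ℓ x.frob) ^ (w * Module.finrank ℚ_[ℓ] ↥(W ⊓ perp (S.rep ℓ).ψ W)) *
          ((x.q : ℚ_[ℓ]) ^ w) ^ (Module.finrank ℚ_[ℓ] ↥(W ⊓ perp (S.rep ℓ).ψ W)) = 1 := by
        rw [← pow_mul, ← mul_pow, hc, one_pow]
      rw [mul_pow] at hdet
      calc LinearMap.det (((S.rep ℓ).ρ x.frob).restrict (hI x.frob)) ^ (2 * N)
          = (LinearMap.det (((S.rep ℓ).ρ x.frob).restrict (hI x.frob)) ^ 2) ^ N *
            ((cyc k ℓ x.frob) ^ (w * Module.finrank ℚ_[ℓ] ↥(W ⊓ perp (S.rep ℓ).ψ W)) *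
            ((x.q : ℚ_[ℓ]) ^ w) ^ (Module.finrank ℚ_[ℓ] ↥(W ⊓ perp (S.rep ℓ).ψ W))) ^ N := by
              rw [h6, one_pow, mul_one, pow_mul]
        _ = ((x.q : ℚ_[ℓ]) ^ w) ^ (Module.finrank ℚ_[ℓ] ↥(W ⊓ perp (S.rep ℓ).ψ W) * N) := by
              rw [mul_pow, ← mul_assoc, hdet, one_mul, ← pow_mul]
    have hT0 : T = 0 := by
      rcases Nat.lt_or_ge (Multiset.card T) 3 with h2 | h3
      · exact small_aux _ hnd (fun a ha b hb hab m hm => hneat a b (hmem a ha) (hmem b hb) hab m hm)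
          _ hroot0 T hT3 (by omega) N hN hrel
      · exfalso
        have h3 : Multiset.card T = 3 := by omega
        have hchar : ((S.rep ℓ).ρ x.frob).charpoly = (S.P x).map (algebraMap ℚ ℚ_[ℓ]) :=
          S.charpoly_frob x hxP ℓ hℓ
        have haer : ∀ a : AlgebraicClosure ℚ_[ℓ], aeval a ((S.rep ℓ).ρ x.frob).charpoly =
            aeval a (S.P x) := by
          intro a
          rw [hchar, Polynomial.aeval_map_algebraMap]
        have haer' : ∀ a : AlgebraicClosure ℚ_[ℓ],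
            @aeval ℚ (AlgebraicClosure ℚ_[ℓ]) _ _ DivisionRing.toRatAlgebra a (S.P x) =
            aeval a (S.P x) := by
          intro a
          rw [aeval_def]
        have hcc : (algebraMap ℚ_[ℓ] (AlgebraicClosure ℚ_[ℓ]) ((x.q : ℚ_[ℓ]) ^ w)) =
            ((((x.q : ℚ) ^ w : ℚ)) : AlgebraicClosure ℚ_[ℓ]) := by
          push_cast
          simp
        -- the roots are near one
        set r : ℝ := ((ℓ : ℝ) ^ 2)⁻¹ with hr
        have hl1 : (1 : ℝ) < ℓ := by exact_mod_cast (Fact.out : ℓ.Prime).one_lt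
        have hr0 : 0 ≤ r := by positivity
        have hr1 : r < 1 := by
          rw [hr]
          refine inv_lt_one_of_one_lt₀ ?_
          nlinarith
        have hnear : ∀ a ∈ (((S.rep ℓ).ρ x.frob).charpoly).aroots (AlgebraicClosure ℚ_[ℓ]),
            ‖(a : PadicAlgCl ℓ) - 1‖ ≤ r := by
          intro a ha
          refine norm_root_sub_one_le 2 _ hCg a ?_
          rw [charpoly_conj, charpoly_frob_eq (oddSys S) ℓ _ x hxn'.1 hℓ,
            Polynomial.aeval_map_algebraMap]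
          show aeval a (S.P x) = 0
          rw [← haer]
          exact hmem a ha
        have hTA : ∀ a ∈ T, a ∈ (((S.rep ℓ).ρ x.frob).charpoly).aroots (AlgebraicClosure ℚ_[ℓ]) :=
          fun a ha => Multiset.mem_of_le hT3 (Multiset.mem_add.2 (Or.inl ha))
        have hcn : ‖((algebraMap ℚ_[ℓ] (AlgebraicClosure ℚ_[ℓ]) ((x.q : ℚ_[ℓ]) ^ w) :
            PadicAlgCl ℓ)) - 1‖ ≤ r := by
          obtain ⟨a, ha⟩ := Multiset.card_pos_iff_exists_mem.1 (by omega : 0 < Multiset.card T)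
          have h1 := hnear a (hTA a ha)
          have h2 := hnear _ (Multiset.mem_of_le hT3 (Multiset.mem_add.2 (Or.inr
            (Multiset.mem_map_of_mem _ ha))))
          have h4 := near_mul hr1 h1 h2
          rwa [mul_div_cancel₀ _ (hroot0 a (hTA a ha))] at h4
        have hTn : ‖(T.prod : PadicAlgCl ℓ) - 1‖ ≤ r := by
          have h4 : ∀ T' : Multiset (PadicAlgCl ℓ), (∀ a ∈ T', ‖a - 1‖ ≤ r) →
              ‖T'.prod - 1‖ ≤ r := by
            intro T'
            induction T' using Multiset.induction_on with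
            | empty => intro _; simpa using hr0
            | cons a T' ih =>
              intro h
              rw [Multiset.prod_cons]
              exact near_mul hr1 (h a (Multiset.mem_cons_self a T'))
                (ih fun b hb => h b (Multiset.mem_cons_of_mem hb))
          exact h4 T fun a ha => hnear a (hTA a ha)
        have hsq : T.prod ^ 2 =
            (algebraMap ℚ_[ℓ] (AlgebraicClosure ℚ_[ℓ]) ((x.q : ℚ_[ℓ]) ^ w)) ^ 3 := by
          refine pow_inj_of_norm (F := PadicAlgCl ℓ) r hr1 (fun q hq => lt_norm_prime ℓ q hq) _ _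
            (near_pow hr0 hr1 hTn 2) (near_pow hr0 hr1 hcn 3) N hN ?_
          rw [← pow_mul, ← pow_mul, hrel, h3]
        rw [hcc] at hsq
        have hT3' : T + T.map (fun a => ((((x.q : ℚ) ^ w : ℚ)) : AlgebraicClosure ℚ_[ℓ]) / a) ≤
            (((S.rep ℓ).ρ x.frob).charpoly).aroots (AlgebraicClosure ℚ_[ℓ]) := by
          rw [← hcc]
          exact hT3
        have hP0 : S.P x ≠ 0 := hxn.2.1
        have hcp0 : ((S.rep ℓ).ρ x.frob).charpoly ≠ 0 :=
          (LinearMap.charpoly_monic ((S.rep ℓ).ρ x.frob)).ne_zero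
        have hfin := three_aux (S.P x) hP0 _ hnd
          (fun a ha => Polynomial.mem_aroots.2 ⟨hcp0, by rw [haer, ← haer']; exact ha⟩)
          (fun a ha => by rw [haer', ← haer]; exact hmem a ha) (by rw [hcard]; exact h6)
          (fun a ha b hb hab m hm => hneat a b (hmem a ha) (hmem b hb) hab m hm) _ hroot0 T hT3' h3
          hsq
        rw [← pow_mul] at hfin
        exact not_isSquare_pow x.q (w * 3) hq0 hqsq (hw.mul (by decide)) hfin
    rw [hT0, Multiset.card_zero] at hT1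
    exact Submodule.finrank_eq_zero.mp hT1.symm
  intro y hy hy'
  have hyI : y ∈ W ⊓ perp (S.rep ℓ).ψ W := ⟨hy, hy'⟩
  rw [hbot] at hyI
  exact (Submodule.mem_bot _).mp hyI

end Pool.Agent.T10
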