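import Mathlib

/-!
# Three eigenvalues: the parity argument (helper90)

Let `P` be a rational polynomial whose roots are `b_j`, `c / b_j`, `j = 0, 1, 2`, six different numbers,
no quotient of two of them being a root of unity, and `(b_0 b_1 b_2) ^ 2 = c ^ 3`.  Then `c ^ 3` is a square
in `ℚ`.  Proof: otherwise there is an embedding `φ` of the field of the algebraic numbers with
`φ (b_0 b_1 b_2) = - b_0 b_1 b_2`; `φ` permutes the three pairs `{b_j, c / b_j}`, so `-1` is a product of
some of the three numbers `c / b_j ^ 2`, whose product is `1`.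
-/

set_option autoImplicit false

open Polynomial

namespace Pool.Agent.B4801b90

/-- Two of three: the last step. -/
theorem last_step {Ω : Type*} [Field Ω] [CharZero Ω] (r : Fin 3 → Ω) (s : Fin 3 → Prop)
    [DecidablePred s] (hr : ∀ j, ∀ m : ℕ, 0 < m → r j ^ m ≠ 1) (h1 : r 0 * r 1 * r 2 = 1)
    (h2 : ∏ j, (if s j then (1 : Ω) else r j) = -1) : False := by
  have hone : (1 : Ω) ≠ -1 := by
    intro h
    have h3 : (2 : Ω) = 0 := by linear_combination h
    exact two_ne_zero h3
  have hm : ∀ j, r j ≠ -1 := fun j h => hr j 2 two_pos (by rw [h]; norm_num)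
  rw [Fin.prod_univ_three] at h2
  by_cases h0 : s 0 <;> by_cases h1' : s 1 <;> by_cases h2' : s 2 <;>
    simp only [h0, h1', h2', if_true, if_false, one_mul, mul_one] at h2
  · exact hone h2
  · exact hm 2 h2
  · exact hm 1 h2
  · refine hm 0 ?_
    have h3 : r 0 * (r 1 * r 2) = 1 := by rw [← mul_assoc]; exact h1
    rw [h2] at h3
    linear_combination -h3
  · exact hm 0 h2
  · refine hm 1 ?_
    have h3 : r 1 * (r 0 * r 2) = 1 := by rw [← h1]; ring
    rw [h2] at h3
    linear_combination -h3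
  · refine hm 2 ?_
    rw [h2] at h1
    linear_combination -h1
  · rw [h1] at h2
    exact hone h2

/-- The parity argument. -/
theorem three {Ω : Type*} [Field Ω] [CharZero Ω] [IsAlgClosed Ω] (P : ℚ[X]) (hP : P ≠ 0) (c : ℚ)
    (b : Fin 3 → Ω) (hb0 : ∀ j, b j ≠ 0)
    (hroot : ∀ j, aeval (b j) P = 0)
    (hall : ∀ a : Ω, aeval a P = 0 → ∃ j, a = b j ∨ a = (c : Ω) / b j)
    (hinj : Function.Injective b) (hne : ∀ i j, b i ≠ (c : Ω) / b j)
    (hneat : ∀ j, ∀ m : ℕ, 0 < m → ((c : Ω) / b j ^ 2) ^ m ≠ 1)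
    (hprod : (b 0 * b 1 * b 2) ^ 2 = (c : Ω) ^ 3) : IsSquare (c ^ 3) := by
  classical
  by_contra hsq
  -- the embedding
  have halg : ∀ j, IsAlgebraic ℚ (b j) := fun j => ⟨P, hP, hroot j⟩
  let L := algebraicClosure ℚ Ω
  have hmem : ∀ j, b j ∈ L := fun j => mem_algebraicClosure_iff.2 (halg j)
  let B : Fin 3 → L := fun j => ⟨b j, hmem j⟩
  set δ : L := B 0 * B 1 * B 2 with hδ
  have hδ2 : δ ^ 2 = algebraMap ℚ L (c ^ 3) := by
    apply Subtype.ext
    have h1 : ((δ ^ 2 : L) : Ω) = (b 0 * b 1 * b 2) ^ 2 := rfl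
    rw [h1, hprod]
    have h2 : ((algebraMap ℚ L (c ^ 3) : L) : Ω) = algebraMap ℚ Ω (c ^ 3) := rfl
    rw [h2]
    simp
  have hirr : Irreducible (X ^ 2 - C (c ^ 3) : ℚ[X]) := by
    rw [X_pow_sub_C_irreducible_iff_of_prime Nat.prime_two]
    intro y hy
    exact hsq ⟨y, by rw [← hy, sq]⟩
  have hmin : minpoly ℚ δ = X ^ 2 - C (c ^ 3) := by
    refine (minpoly.eq_of_irreducible_of_monic hirr ?_ (monic_X_pow_sub_C _ two_ne_zero)).symm
    rw [map_sub, map_pow, aeval_X, aeval_C, hδ2, sub_self]
  obtain ⟨φ, hφ⟩ : ∃ φ : L →ₐ[ℚ] Ω, φ δ = -(δ : Ω) := by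
    have halgL : Algebra.IsAlgebraic ℚ L := algebraicClosure.isAlgebraic ℚ Ω
    refine IntermediateField.exists_algHom_of_splits_of_aeval
      (fun s => ⟨(halgL.isAlgebraic s).isIntegral, IsAlgClosed.splits _⟩) ?_
    rw [hmin, map_sub, map_pow, aeval_X, aeval_C, neg_sq]
    have h1 : ((δ : Ω)) ^ 2 = ((δ ^ 2 : L) : Ω) := rfl
    rw [h1, hδ2]
    exact sub_self _
  -- the permutation of the pairs
  have hφc : ∀ j, (c : Ω) / φ (B j) = φ ((c : L) / B j) := by
    intro j
    rw [map_div₀]
    congr 1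
    simp
  have hfr : ∀ j, aeval (φ (B j)) P = 0 := by
    intro j
    rw [aeval_algHom_apply]
    have h1 : aeval (B j) P = 0 := by
      apply Subtype.ext
      have h2 : ((aeval (B j) P : L) : Ω) = aeval ((B j : L) : Ω) P := by
        have := aeval_algebraMap_apply Ω (B j) P
        exact this.symm
      rw [h2]
      exact hroot j
    rw [h1, map_zero]
  choose J hJ using fun j => hall (φ (B j)) (hfr j)
  have hB0 : ∀ j, B j ≠ 0 := fun j h => hb0 j (congrArg Subtype.val h)
  have hJinj : Function.Injective J := by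
    intro i j hij
    by_contra hne'
    have hφinj : Function.Injective φ := φ.toRingHom.injective
    have h1 : φ (B i) = φ (B j) ∨ φ (B i) = (c : Ω) / φ (B j) ∨ φ (B j) = (c : Ω) / φ (B i) := by
      rcases hJ i with hi | hi <;> rcases hJ j with hj | hj
      · left; rw [hi, hj, hij]
      · right; right; rw [hi, hj, hij]
      · right; left; rw [hi, hj, hij]
      · left; rw [hi, hj, hij]
    rcases h1 with h1 | h1 | h1
    · exact hne' (hinj (congrArg Subtype.val (hφinj h1)))
    · rw [hφc] at h1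
      have h2 := congrArg Subtype.val (hφinj h1)
      refine hne i j ?_
      have h3 : ((((c : L) / B j : L)) : Ω) = (c : Ω) / b j := by
        rw [IntermediateField.coe_div]
        congr 1
      rw [← h3]
      exact h2
    · rw [hφc] at h1
      have h2 := congrArg Subtype.val (hφinj h1)
      refine hne j i ?_
      have h3 : ((((c : L) / B i : L)) : Ω) = (c : Ω) / b i := by
        rw [IntermediateField.coe_div]
        congr 1
      rw [← h3]
      exact h2
  have hJbij : Function.Bijective J := Finite.injective_iff_bijective.1 hJinj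
  let e : Fin 3 ≃ Fin 3 := Equiv.ofBijective J hJbij
  have hfe : ∀ j, φ (B (e.symm j)) = b j ∨ φ (B (e.symm j)) = (c : Ω) / b j := by
    intro j
    have h1 : J (e.symm j) = j := e.apply_symm_apply j
    have h2 := hJ (e.symm j)
    rwa [h1] at h2
  refine last_step (fun j => (c : Ω) / b j ^ 2) (fun j => φ (B (e.symm j)) = b j) hneat ?_ ?_
  · have h0 := hb0 0
    have h1 := hb0 1
    have h2 := hb0 2
    have h3 : (c : Ω) / b 0 ^ 2 * ((c : Ω) / b 1 ^ 2) * ((c : Ω) / b 2 ^ 2) =
        (c : Ω) ^ 3 / (b 0 * b 1 * b 2) ^ 2 := by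
      field_simp
    rw [h3, hprod, div_self]
    rw [← hprod]
    exact pow_ne_zero _ (mul_ne_zero (mul_ne_zero h0 h1) h2)
  · have h1 : ∀ j, (if φ (B (e.symm j)) = b j then (1 : Ω) else (c : Ω) / b j ^ 2) * b j =
        φ (B (e.symm j)) := by
      intro j
      split_ifs with h
      · rw [one_mul, h]
      · rcases hfe j with h' | h'
        · exact absurd h' h
        · rw [h']
          have := hb0 j
          field_simp
    have h2 : (∏ j, (if φ (B (e.symm j)) = b j then (1 : Ω) else (c : Ω) / b j ^ 2)) * ∏ j, b j =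
        ∏ j, φ (B j) := by
      rw [← Finset.prod_mul_distrib, Finset.prod_congr rfl (fun j _ => h1 j)]
      exact Equiv.prod_comp e.symm (fun j => φ (B j))
    have h3 : ∏ j, φ (B j) = -(∏ j, b j) := by
      rw [Fin.prod_univ_three, Fin.prod_univ_three, ← map_mul, ← map_mul]
      exact hφ
    rw [h3] at h2
    have h4 : (∏ j, b j) ≠ 0 := Finset.prod_ne_zero_iff.2 fun j _ => hb0 j
    have h5 : ((∏ j, (if φ (B (e.symm j)) = b j then (1 : Ω) else (c : Ω) / b j ^ 2)) + 1) *
        ∏ j, b j = 0 := by rw [add_mul, h2]; ring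
    have h6 := (mul_eq_zero.1 h5).resolve_right h4
    linear_combination h6

end Pool.Agent.B4801b90
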