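import Pool.Agent.W_b4801b_t10.SmallRes
import Pool.Agent.W_b4801b_h90.Three

/-!
# Dimension six, odd weight: semisimplicity for all primes (helper90)
-/

set_option autoImplicit false

noncomputable section

open Polynomial

universe u v

namespace Pool.Agent.T10

open Pool.Agent.B4801b

variable {k : Type u} [Field k] {w : ℕ}

/-- The Frobenius elements of the places `x` such that `q_x` is not a square are dense in the absolute
Galois group.  (For `k` finitely generated over `ℚ` already the places with `q_x` a prime number are.) -/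
def DenseOdd {k : Type u} [Field k] {w : ℕ} (S : CompSys.{u, v} k w) : Prop :=
  ∀ (U : Subgroup (Gal k)), IsOpen (U : Set (Gal k)) → ∀ (g : Gal k) (T : Finset ℕ),
    ∃ x ∈ S.Pl, ¬ IsSquare x.q ∧ x.p ∉ T ∧ ∃ h : Gal k, g⁻¹ * (h * x.frob * h⁻¹) ∈ U

/-- The system with the places `x` such that `q_x` is not a square. -/
def oddSys (S : CompSys.{u, v} k w) : CompSys.{u, v} k w where
  rep := S.rep
  Pl := {x | x ∈ S.Pl ∧ ¬ IsSquare x.q}
  P := S.P
  charpoly_frob := fun v hv => S.charpoly_frob v hv.1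
  pure := fun v hv => S.pure v hv.1

theorem denseFrob_oddSys (S : CompSys.{u, v} k w) (h : DenseOdd S) : DenseFrob (oddSys S) := by
  intro U hU g T
  obtain ⟨x, hx, hq, hp, hg⟩ := h U hU g T
  exact ⟨x, ⟨hx, hq⟩, hp, hg⟩

theorem DenseOdd.dense (S : CompSys.{u, v} k w) (h : DenseOdd S) : DenseFrob S := by
  intro U hU g T
  obtain ⟨x, hx, -, hp, hg⟩ := h U hU g T
  exact ⟨x, hx, hp, hg⟩

/-- There are neat places whose Frobenius element is congruent to `1` modulo `ℓ ^ 2`. -/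
theorem exists_neat_cg (S : CompSys.{u, v} k w) (hd : DenseFrob S) (D : ℕ)
    (hm : MaxRoots S D) (ℓ : ℕ) [Fact ℓ.Prime] (g₀ : Gal k) (hg₀ : NeatAt (S.rep ℓ) D g₀) :
    ∃ x, Neat S D x ∧ ℓ ≠ x.p ∧ ∃ h : Gal k, Cg ℓ 2 ((chartOf S ℓ).M (h * x.frob * h⁻¹)) := by
  obtain ⟨U, hU, hmax⟩ := hm
  obtain ⟨a, ha, haU⟩ := exists_pow_mem (U ⊓ UT S {ℓ} 2)
    (by rw [Subgroup.coe_inf]; exact hU.inter (isOpen_UT S {ℓ} 2)) g₀
  set g := g₀ ^ a with hgdef
  have hC : Cg ℓ 2 ((chartOf S ℓ).M g) :=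
    (chartOf S ℓ).cong 2 _ (UT_le S {ℓ} 2 ℓ (Finset.mem_singleton_self ℓ) haU.2)
  have hD : D ≤ (((chartOf S ℓ).M g).charpoly.rootSet (AlgebraicClosure ℚ_[ℓ])).ncard := by
    obtain ⟨hD, htors⟩ := hg₀
    rw [eigGE_iff S ℓ (chartOf S ℓ)] at hD
    rw [(chartOf S ℓ).charpoly_eq] at htors
    obtain ⟨γ, hγ, hγr⟩ := exists_injective_of_le_ncard _ (Polynomial.rootSet_finite _ _) D hD
    have hr : ∀ i, aeval (γ i) ((chartOf S ℓ).M g₀).charpoly = 0 := fun i =>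
      Polynomial.aeval_eq_zero_of_mem_rootSet (hγr i)
    refine le_ncard_of_injective _ (Polynomial.rootSet_finite _ _) D (fun i => γ i ^ a) ?_ ?_
    · intro i j hij
      by_contra hne
      exact htors _ _ (hr i) (hr j) (fun h => hne (hγ h)) a ha hij
    · intro i
      rw [Polynomial.mem_rootSet]
      refine ⟨(Matrix.charpoly_monic _).ne_zero, ?_⟩
      rw [hgdef, map_pow]
      exact aeval_charpoly_pow _ _ (hr i) a
  obtain ⟨X, hX⟩ := hC
  obtain ⟨γ, hγ, hγr⟩ := exists_injective_of_le_ncard _ (Polynomial.rootSet_finite _ _) D hD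
  obtain ⟨N, hN⟩ := exists_near_roots (D := D) (1 + (ℓ : ℤ_[ℓ]) ^ 2 • X) γ hγ (by
    intro i
    rw [← hX]
    exact Polynomial.aeval_eq_zero_of_mem_rootSet (hγr i))
  obtain ⟨x, hx, hxT, ⟨h, u, hu, hconj⟩, hP⟩ := exists_frob_near S hd (U ⊓ UT S {ℓ} 2)
    (by rw [Subgroup.coe_inf]; exact hU.inter (isOpen_UT S {ℓ} 2)) g {ℓ} N
  have hp : ℓ ≠ x.p := fun h => hxT (h ▸ Finset.mem_singleton_self ℓ)
  obtain ⟨Y, hY⟩ := hP ℓ (Finset.mem_singleton_self ℓ) _ hX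
  obtain ⟨hP0, β, h1, h2, -⟩ := hN N le_rfl Y (S.P x) hY
  have hge := le_ncard_of_near (S.P x) hP0 β h1 h2
  have hle := hmax x hx ⟨h, by rw [hconj]; exact U.mul_mem haU.1 hu.1⟩
  have hC' : Cg ℓ 2 ((chartOf S ℓ).M (h * x.frob * h⁻¹)) := by
    obtain ⟨X', hX'⟩ := (chartOf S ℓ).cong 2 u (UT_le S {ℓ} 2 ℓ (Finset.mem_singleton_self ℓ) hu.2)
    rw [hconj, map_mul, hX, hX', ← toQ_mul]
    refine ⟨X + X' + (ℓ : ℤ_[ℓ]) ^ 2 • (X * X'), ?_⟩
    congr 1
    simp only [add_mul, mul_add, one_mul, mul_one, Matrix.smul_mul, Matrix.mul_smul, smul_add]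
    abel
  have h3 := neat_of_cg S ℓ x hx hp h hC'
  rw [le_antisymm hle hge] at h3
  exact ⟨x, ⟨hx, h3⟩, hp, h, hC'⟩

/-- The product of elements near `1` is near `1`. -/
theorem near_mul {F : Type*} [NormedField F] [IsUltrametricDist F] {r : ℝ} (hr : r < 1) {a b : F}
    (ha : ‖a - 1‖ ≤ r) (hb : ‖b - 1‖ ≤ r) : ‖a * b - 1‖ ≤ r := by
  have h1 : a * b - 1 = a * (b - 1) + (a - 1) := by ring
  rw [h1]
  refine (IsUltrametricDist.norm_add_le_max _ _).trans (max_le ?_ ha)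
  rw [norm_mul, ApxA_norm_eq r hr a ha, one_mul]
  exact hb

theorem near_pow {F : Type*} [NormedField F] [IsUltrametricDist F] {r : ℝ} (hr0 : 0 ≤ r)
    (hr : r < 1) {a : F} (ha : ‖a - 1‖ ≤ r) (n : ℕ) : ‖a ^ n - 1‖ ≤ r := by
  induction n with
  | zero => simpa using hr0
  | succ n ih => rw [pow_succ]; exact near_mul hr ih ha

/-- If `c` is a natural number which is not a square and `n` is odd then `c ^ n` is not a square in
`ℚ`. -/
theorem not_isSquare_pow (q n : ℕ) (hq0 : q ≠ 0) (hq : ¬ IsSquare q) (hn : Odd n) :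
    ¬ IsSquare ((q : ℚ) ^ n) := by
  rintro ⟨y, hy⟩
  obtain ⟨m, rfl⟩ := hn
  apply hq
  rw [← Rat.isSquare_natCast_iff]
  have h0 : (q : ℚ) ≠ 0 := Nat.cast_ne_zero.2 hq0
  refine ⟨y / (q : ℚ) ^ m, ?_⟩
  have h1 : (q : ℚ) ^ (2 * m + 1) = (q : ℚ) ^ m * (q : ℚ) ^ m * q := by ring
  rw [h1] at hy
  field_simp
  linear_combination hy

end Pool.Agent.T10
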